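import Pool.Agent.Helper272_BZ.C
import Pool.Agent.Helper272_BZ.D

set_option autoImplicit false

/-!
# MP_eba1ef_gt: zonotopes and bodies with belt directions that form circuits

Call `h` a belt direction of the convex body `K` if at every extreme point `x` of `K` the linear
functionals that attain their maximum over `K` at `x` are all nonnegative at `h` or all nonpositive
at `h` (the hyperplane orthogonal to `h` does not cut the normal cones). If `K` is the sum of a segment
parallel to `h` and another set then `h` is a belt direction; so the directions of the generating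
segments are belt directions of a zonotope, and of every body which has the zonotope as a summand.
(For a polytope it is enough that from every vertex one can move within `K` in the direction `h` or
`-h`, see `Pool.Agent.Helper272_BZ.belt_of_move`.)

**Theorem.** Let `b_1, …, b_d` be a basis of `ℝ^d`, partitioned into blocks of `k_1, …, k_m` vectors, and
let `g_j` be the sum of the vectors of the `j`-th block plus any linear combination of the vectors of
the earlier blocks. If all `b_i` and all `g_j` are belt directions of the convex body `K` then

  `c(K) ≤ ∏_j C(k_j + 1, ⌊(k_j + 1) / 2⌋)`.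

There is equality for the zonotope which is the sum of the segments `[0, b_i]` and `[0, g_j]`, if the
`g_j` are the sums of the blocks.

For `k_j = k` the factor is `2^k` times `1, 3/4, 3/4, 5/8, 5/8, …` for `k = 1, 2, 3, 4, 5, …`, which
is of order `k^(-1/2)`. So a zonotope (or belt body) in `ℝ^d` with a circuit of `k + 1` generating
segments is covered by `2^(d-k) C(k+1, ⌊(k+1)/2⌋)` translates of its interior; this is best
possible for all `k ≤ d`. The case `k = 1` is the theorem for belt bodies (`2^d`), the case `k = 2` is
the bound `3 · 2^(d-2)` of Martini for zonotopes other than parallelotopes. The covering number of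
the zonotope with `d + 1` generating segments in general position is `C(d+1, ⌊(d+1)/2⌋)`. For the
zonotope of a graph with an ear decomposition with ears of `l_1, …, l_m` edges (the first one is a
circuit) the covering number is at most `∏ C(l_j, ⌊l_j / 2⌋)`.

Proof. The values of a functional at the `k_j + 1` vectors `-g_j` and `b_i`, `i` in the block `j`, have
sum zero if the functional vanishes on the earlier blocks. At an extreme point `x` the vectors `a`
among them where the maximal functionals are nonpositive form a set `S_j(x)`. A direction whose
coefficients with respect to these vectors are larger on `S_j(x)` than outside of it, and much larger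
for the earlier blocks than for the later ones, illuminates `x`. All the subsets of a set of `n`
elements are covered by `C(n, ⌊n/2⌋)` chains, and one choice of the coefficients is enough for
all the sets of a chain (the coefficient at `a` is the number of the members of the chain that
contain `a`). The lower bound: the vertices of the zonotope which belong to sets `S_j` of size
`⌊(k_j+1)/2⌋` lie pairwise on opposite supporting hyperplanes.
-/

open scoped Pointwise

namespace Pool.Agent.Results.MP_eba1ef_gt.BeltCircuits

/-- `h` is a belt direction of `K`: at every extreme point `x` of `K` the linear functionals which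
attain their maximum over `K` at `x` are all nonnegative at `h` or all nonpositive at `h`. -/
def IsBelt {d : ℕ} (K : Set (EuclideanSpace ℝ (Fin d))) (h : EuclideanSpace ℝ (Fin d)) : Prop :=
  ∀ x ∈ Set.extremePoints ℝ K,
    (∀ f : EuclideanSpace ℝ (Fin d) →L[ℝ] ℝ, (∀ y ∈ K, f y ≤ f x) → 0 ≤ f h) ∨
    (∀ f : EuclideanSpace ℝ (Fin d) →L[ℝ] ℝ, (∀ y ∈ K, f y ≤ f x) → f h ≤ 0)

section
variable {d m : ℕ}

/-- the number `k_j` of the basis vectors in the block `j` (the vector `i` is in the block `p i`) -/
def size (p : Fin d → Fin m) (j : Fin m) : ℕ := (Finset.univ.filter fun i => p i = j).card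

/-- the sum of the basis vectors in the block `j` -/
noncomputable def blockSum (p : Fin d → Fin m) (b : Fin d → EuclideanSpace ℝ (Fin d)) (j : Fin m) :
    EuclideanSpace ℝ (Fin d) := ∑ i ∈ Finset.univ.filter fun i => p i = j, b i

/-- the linear combination of the basis vectors in the blocks before `j` with the coefficients `η` -/
noncomputable def earlier (p : Fin d → Fin m) (b : Fin d → EuclideanSpace ℝ (Fin d)) (η : Fin d → ℝ)
    (j : Fin m) : EuclideanSpace ℝ (Fin d) := ∑ i ∈ Finset.univ.filter fun i => p i < j, η i • b i

/-- the product of the binomial coefficients `C(k_j + 1, ⌊(k_j + 1) / 2⌋)` -/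
def number (p : Fin d → Fin m) : ℕ := ∏ j, (size p j + 1).choose ((size p j + 1) / 2)

/-- the zonotope: the sum of the segments `[0, b_i]` and `[0, g_j]`, `g_j` the sum of the block `j` -/
def zonotope (p : Fin d → Fin m) (b : Fin d → EuclideanSpace ℝ (Fin d)) :
    Set (EuclideanSpace ℝ (Fin d)) :=
  {x | ∃ (t : Fin d → ℝ) (s : Fin m → ℝ), (∀ i, t i ∈ Set.Icc (0:ℝ) 1) ∧
    (∀ j, s j ∈ Set.Icc (0:ℝ) 1) ∧ x = ∑ i, t i • b i + ∑ j, s j • blockSum p b j}

/-- Let `b_1, …, b_d` be a basis of `ℝ^d`, partitioned into blocks of `k_1, …, k_m` vectors. (1) Let `g_j`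
be the sum of the `j`-th block and a linear combination of the earlier blocks. If all `b_i` and `g_j` are
belt directions of the convex body `K` then `K` is covered by `∏ C(k_j + 1, ⌊(k_j + 1) / 2⌋)`
translates of its interior. (2) Let `g_j` be the sum of the `j`-th block. The zonotope which is the sum
of the segments `[0, b_i]`, `[0, g_j]` is a convex body with these belt directions, and it is not
covered by fewer translates of its interior. (3) If a set is the sum of the segment `[0, h]` and another
set then `h` is a belt direction of it. -/
theorem result (p : Fin d → Fin m) (b : Module.Basis (Fin d) ℝ (EuclideanSpace ℝ (Fin d))) :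
    (∀ (η : Fin m → Fin d → ℝ) (K : Set (EuclideanSpace ℝ (Fin d))),
      Convex ℝ K → IsCompact K → (interior K).Nonempty →
      (∀ i, IsBelt K (b i)) → (∀ j, IsBelt K (blockSum p b j + earlier p b (η j) j)) →
      ∃ T : Finset (EuclideanSpace ℝ (Fin d)),
        T.card ≤ number p ∧ K ⊆ ⋃ t ∈ T, (fun x => t + x) '' interior K) ∧
    ((Convex ℝ (zonotope p b) ∧ IsCompact (zonotope p b) ∧ (interior (zonotope p b)).Nonempty ∧
        (∀ i, IsBelt (zonotope p b) (b i)) ∧ ∀ j, IsBelt (zonotope p b) (blockSum p b j)) ∧
      ∀ T : Finset (EuclideanSpace ℝ (Fin d)),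
        zonotope p b ⊆ ⋃ t ∈ T, (fun x => t + x) '' interior (zonotope p b) → number p ≤ T.card) ∧
    ∀ (h : EuclideanSpace ℝ (Fin d)) (L : Set (EuclideanSpace ℝ (Fin d))),
      IsBelt (segment ℝ 0 h + L) h := by
  refine ⟨?_, ⟨⟨?_, ?_, ?_, ?_, ?_⟩, ?_⟩, ?_⟩
  · intro η K hK hc hi hb hg
    obtain ⟨T, hT, hcov⟩ := Pool.Agent.Helper272_BZ.upper' p b η hK hc hi hb hg
    exact ⟨T, by exact_mod_cast hT, hcov⟩
  · exact Pool.Agent.Helper272_BZ.zono_convex p b
  · exact Pool.Agent.Helper272_BZ.zono_compact p b
  · exact Pool.Agent.Helper272_BZ.zono_interior p b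
  · exact Pool.Agent.Helper272_BZ.zono_belt p b
  · exact Pool.Agent.Helper272_BZ.zono_belt' p b
  · exact Pool.Agent.Helper272_BZ.lower p b
  · intro h L
    apply Pool.Agent.Helper272_BZ.belt_of_segment
    rintro _ ⟨a, ha, l, hl, rfl⟩
    obtain ⟨α, τ, hα, hτ, hατ, rfl⟩ := ha
    refine ⟨l, τ, by linarith, ?_, ?_, ?_⟩
    · simp only [smul_zero, zero_add]
      exact add_comm _ _
    · exact ⟨0, left_mem_segment ℝ 0 h, l, hl, zero_add l⟩
    · exact ⟨h, right_mem_segment ℝ 0 h, l, hl, add_comm h l⟩

end

end Pool.Agent.Results.MP_eba1ef_gt.BeltCircuits
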