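import Pool.Agent.Helper762_FF.CutsFinal

set_option autoImplicit false

/-!
# MP_eba1ef_gt: cubes cut by convex sets, with cuts which meet

Let `M ⊆ ℝ^n` be a closed convex set with interior points and let `K = [-1,1]^n ∩ M`. For
example `M` may be an intersection of halfspaces, with any number of their boundaries meeting
at points of `K`. We show `c(K) ≤ 2^n` if the normal cone of `M` at each point `x` of `K` is of one of
the following three types (which may depend on `x`):

* `TypeA`: it is generated by `m` vectors, and all points with entries `0, 1, -1` and at most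
  `m - 1` nonzero entries are strictly inside the supporting halfspaces of these vectors (which
  is the case if these points are in the interior of `M`). For `m ≤ 1` (smooth points) it suffices
  that the centre `0` is in the interior of `M`, and for `m = 2` that `± e_j` are.
* `TypeB`: it is generated by `m` vectors, their supporting hyperplanes have the distances `≥ t_i`
  from the centre, and `∑ exp (- t_i² / 2) < 1`; for example, `M` may contain the ball with radius `R`
  about the centre, `R² > 2 log m`. It is enough that this holds for points with at most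
  `m` nonzero coordinates.
* `TypeC`: it has dimension at most `k`, and all points with entries `0, 1, -1` and at most `k`
  nonzero entries are strictly inside its supporting halfspaces.

Proof. The `2^n` directions are the negatives of the vertices of the cube. A vertex `τ` is suitable for
`x` if `τ_j = x_j` whenever `|x_j| = 1`, and `⟪u, τ⟫ > 0` for all nonzero normals `u` of `M` at `x`.
By linear algebra we replace `x` by a point `y` of the cube which has the same products with the
normals and at most `k` coordinates in the open interval `(-1, 1)`, where `k` is the dimension of the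
normal cone (`move_sub`). Then `y` has to be rounded. For `TypeC` one takes the nearest vertex. For
`TypeB` one takes a random vertex with independent coordinates and mean `y`, and uses Hoeffding's
lemma (`round_exp`). For `TypeA` either the nearest vertex or one of its neighbours is suitable
(`round_A`): the functional for which the nearest vertex is bad is good at all neighbours, and
none of the others is bad at two of the neighbours.
-/

namespace Pool.Agent.Results.MP_eba1ef_gt.CutsThatMeet

/-- `ℝ^n`. -/
abbrev E (n : ℕ) := EuclideanSpace ℝ (Fin n)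

/-- `u` is a normal vector (possibly zero) of `M` at `x`, i.e. an element of the normal cone. -/
def IsNormal {n : ℕ} (M : Set (E n)) (x u : E n) : Prop :=
  ∀ y ∈ M, inner ℝ u y ≤ inner ℝ u x

/-- The normal cone of `M` at `x` is generated by vectors `a 0, …, a (m-1)` such that
`∑ j ∈ F, |a i j| < ⟪a i, x⟫` for all sets `F` of less than `m` coordinates. Since the left side is the
maximum of `⟪a i, y⟫` for all `y` with the entries `± 1` in `F` and `0` elsewhere, this means that
all vectors with entries `0, 1, -1` and less than `m` nonzero entries are strictly inside the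
halfspaces `⟪a i, y⟫ ≤ ⟪a i, x⟫`. -/
def TypeA {n : ℕ} (M : Set (E n)) (x : E n) : Prop :=
  ∃ (m : ℕ) (a : Fin m → E n),
    (∀ i, ∀ F : Finset (Fin n), F.card < m → ∑ j ∈ F, |a i j| < inner ℝ (a i) x) ∧
    ∀ u, IsNormal M x u → ∃ c : Fin m → ℝ, (∀ i, 0 ≤ c i) ∧ u = ∑ i, c i • a i

/-- The normal cone of `M` at `x` is generated by `a 0, …, a (m-1)`, and there are `t i > 0` with
`∑ exp (- t_i² / 2) < 1` such that `t i * ‖a i‖ ≤ ⟪a i, x⟫`, where only `m` coordinates
need to be counted in the norm: the distance of the centre `0` from the supporting hyperplane is at least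
`t i`. -/
def TypeB {n : ℕ} (M : Set (E n)) (x : E n) : Prop :=
  ∃ (m : ℕ) (a : Fin m → E n) (t : Fin m → ℝ), (∀ i, 0 < t i) ∧
    ∑ i, Real.exp (-(t i ^ 2 / 2)) < 1 ∧
    (∀ i, ∀ F : Finset (Fin n), F.card ≤ m → t i * √(∑ j ∈ F, a i j ^ 2) ≤ inner ℝ (a i) x) ∧
    ∀ u, IsNormal M x u → ∃ c : Fin m → ℝ, (∀ i, 0 ≤ c i) ∧ u = ∑ i, c i • a i

/-- The normal cone of `M` at `x` is contained in a linear subspace of dimension at most `k`, and for
each nonzero normal `u` and all sets `F` of at most `k` coordinates `∑ j ∈ F, |u j| < ⟪u, x⟫`: all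
vectors with entries `0, 1, -1` and at most `k` nonzero entries are strictly inside the supporting
halfspaces of `M` at `x`. (For `k = 0`: `x` is an interior point of `M`.) -/
def TypeC {n : ℕ} (M : Set (E n)) (x : E n) : Prop :=
  ∃ (k : ℕ) (W : Submodule ℝ (E n)), Module.finrank ℝ W ≤ k ∧
    ∀ u, IsNormal M x u → u ∈ W ∧
      (u ≠ 0 → ∀ F : Finset (Fin n), F.card ≤ k → ∑ j ∈ F, |u j| < inner ℝ u x)

/-- **Cubes cut by convex sets.** Let `M` be a closed convex set with nonempty interior in `ℝ^n` and
let `K = [-1, 1]^n ∩ M`. If the normal cone of `M` at each point of `K` is of type A, B or C, then `K` is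
covered by at most `2^n` translates of its interior. -/
theorem result (n : ℕ) (M : Set (E n)) (hM : Convex ℝ M) (hcl : IsClosed M)
    (hint : (interior M).Nonempty) (K : Set (E n)) (hK : K = {x | ∀ j, |x j| ≤ 1} ∩ M)
    (h : ∀ x ∈ K, TypeA M x ∨ TypeB M x ∨ TypeC M x) :
    ∃ T : Finset (E n), T.card ≤ 2 ^ n ∧ K ⊆ ⋃ t ∈ T, (fun x => t + x) '' interior K := by
  classical
  open Helper762_FF in
  subst hK
  refine covN_euclid hM hcl hint ?_
  intro x hx hx1
  have hx1' : ∀ j, |Ph n x j| ≤ 1 := hx1
  have hsum : ∀ (m : ℕ) (c : Fin m → ℝ) (a : Fin m → E n),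
      Ph n (∑ i, c i • a i) = ∑ i, c i • Ph n (a i) := by
    intro m c a
    rw [map_sum]
    exact Finset.sum_congr rfl fun i _ => map_smul _ _ _
  rcases h x ⟨hx1, hx⟩ with ⟨m, a, h1, h2⟩ | ⟨m, a, t, ht, hs, h1, h2⟩ | ⟨k, W, hW, h1⟩
  · obtain ⟨τ, hτ, hc⟩ := round_A hx1' (fun i => Ph n (a i)) (fun i F hF => by
      have := h1 i F hF
      rw [inner_ph] at this
      exact this)
    refine ⟨τ, hτ, fun u hu0 hu => ?_⟩
    obtain ⟨c, hc0, rfl⟩ := h2 u hu
    rw [hsum]
    refine hc c hc0 ?_
    rw [← hsum]
    exact fun h0 => hu0 ((map_eq_zero_iff _ (Ph n).injective).1 h0)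
  · obtain ⟨τ, hτ, hc⟩ := round_B hx1' (fun i => Ph n (a i)) t ht hs (fun i F hF => by
      have := h1 i F hF
      rw [inner_ph] at this
      exact this)
    refine ⟨τ, hτ, fun u hu0 hu => ?_⟩
    obtain ⟨c, hc0, rfl⟩ := h2 u hu
    rw [hsum]
    refine hc c hc0 ?_
    rw [← hsum]
    exact fun h0 => hu0 ((map_eq_zero_iff _ (Ph n).injective).1 h0)
  · let W' : Submodule ℝ (Fin n → ℝ) := W.map (Ph n).toLinearMap
    have hW' : Module.finrank ℝ W' ≤ k := (Submodule.finrank_map_le _ _).trans hW
    obtain ⟨τ, hτ, hc⟩ := round_C hx1' W' hW'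
    refine ⟨τ, hτ, fun u hu0 hu => ?_⟩
    obtain ⟨huW, huF⟩ := h1 u hu
    refine hc _ (Submodule.mem_map_of_mem huW) fun F hF => ?_
    have := huF hu0 F hF
    rw [inner_ph] at this
    exact this

end Pool.Agent.Results.MP_eba1ef_gt.CutsThatMeet
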