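import Pool.Agent.H865_flat.Defs
import Pool.Agent.H865_flat.Sparse

set_option autoImplicit false

/-!
# MP_eba1ef_gt: polytopes with fewer faces than the cube; extreme points in flats

Let `c(K)` be the least number of translates of `int K` which cover the convex body `K ⊆ ℝ^d`, and
let `f_k(P)` be the number of the `k`-dimensional faces of the polytope `P`; the cube has
`2^(d-k) (d choose k)` of them. No symmetry is assumed.

1. For all polytopes `P` and all `k = 0, …, d`:
   `c(P) ≤ 6 d log(2d+1) 2^d f_k(P) / f_k(cube)` and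
   `c(P) ≤ 1 + log(f_0(P)) 2^d f_k(P) / f_k(cube)`. So a polytope which has, in some dimension `k`,
   fewer faces than the cube up to the factor `6 d log(2d+1)`, is covered by fewer than `2^d`
   translates; a polytope which is a counterexample has at least
   `f_k(cube) / (6 d log(2d+1))` faces of each dimension `k`.
2. If `P` has `n ≤ 2d` facets then `c(P) ≤ 2 d 2^d exp(-(2d-n)(2d-n+1)/(4d))`. So
   `c(P) < 2^d` for all polytopes with at most `2d - 2 √(d log(2d))` facets; the cube has `2d`
   facets and needs `2^d`. (By the number of the vertices this is clear only for about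
   `3d/2` facets.)
3. Arbitrary convex bodies: if every extreme point lies on at least `m` of `n` given hyperplanes,
   `m ≤ n ≤ 2m`, with linearly independent normals, then `c(K)` is at most
   `6 d log(2d+1) 2^d exp(-(2m-n)(2m-n+1)/(4m))`, and `c(K) < 2^d` if
   `(2m-n)^2 > 4m log(6 d log(2d+1))`. For instance the extreme points may lie in faces of
   codimension at least `m` of a polytope with `n` facets.
4. If every extreme point has at most `s` nonzero coordinates in some fixed basis, and
   `2s ≤ d`, `(d-2s)^2 > 4(d-s) log(6 d log(2d+1))`, then `c(K) < 2^d`.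
5. The general form: if `H_j` are affine subspaces and `w_j ≥ 0` are weights such that for every
   extreme point `x` the weights of the `H_j` which contain `x` have sum at least one, then
   `c(K) ≤ 6 d log(2d+1) ∑_j w_j 2^(dim H_j)`. (For one subspace, the whole space, this is
   the bound for all convex bodies of the starting file `AllConvexBodies`.)
In (3), (4) and (5) it is enough that `x` differs by an element of `(K - K) / (4 d (d+1))` from a
point of `K` with the property in question.

The proof of (5): by the starting files, some translate of `l (K ∩ H_j)`, `l < 1`, contains the share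
`(l / (1 + l))^(dim H_j)` of a given finite subset of `K ∩ H_j`. Averaging over `j` with the weights
`w_j`, one direction illuminates the share `1 / ∑ w_j 2^(dim H_j)` of any finite set of extreme
points; then the greedy procedure is applied to a net in the set of the extreme points. For (1)
take all the `k`-dimensional faces, with the same weight: every vertex of a `d`-dimensional polytope
lies in at least `d choose k` faces of dimension `k` (`Pool/Agent/H865_flat/Cone.lean`). For (3) take
all intersections of `r = 2m - n` of the hyperplanes with independent normals: there are at most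
`n choose r` of them, and every extreme point lies in at least `m choose r` of them.
-/

namespace Pool.Agent.Results.MP_eba1ef_gt.FewFaces

open Module
open Pool.Agent.H865flat

/-- a convex body -/
def IsBody {d : ℕ} (K : Set (E d)) : Prop := Convex ℝ K ∧ IsCompact K ∧ (interior K).Nonempty

theorem result :
    -- 1. the numbers of faces, compared with the cube
    (∀ (d n : ℕ) (a : Fin n → (E d →ₗ[ℝ] ℝ)) (b : Fin n → ℝ), 2 ≤ d → (∀ i, a i ≠ 0) →
      IsBody (Polyh a b) → ∀ k ≤ d,
      CoveredBy (6 * (d * Real.log (2 * d + 1)) *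
        (2 ^ d * (numFaces a b k / (2 ^ (d - k) * d.choose k)))) (Polyh a b) ∧
      CoveredBy (1 + Real.log (numFaces a b 0) *
        (2 ^ d * (numFaces a b k / (2 ^ (d - k) * d.choose k)))) (Polyh a b) ∧
      (6 * (d * Real.log (2 * d + 1)) * numFaces a b k < 2 ^ (d - k) * d.choose k →
        Fewer (Polyh a b))) ∧
    -- 2. polytopes with few facets
    (∀ (d n : ℕ) (a : Fin n → (E d →ₗ[ℝ] ℝ)) (b : Fin n → ℝ), 2 ≤ d → n ≤ 2 * d →
      IsBody (Polyh a b) →
      CoveredBy (2 * d * (2 ^ d *
        Real.exp (-(((2 * d - n : ℕ) : ℝ) * ((2 * d - n : ℕ) + 1) / (4 * d))))) (Polyh a b) ∧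
      (4 * d * Real.log (2 * d) ≤ (2 * d - n : ℝ) ^ 2 → Fewer (Polyh a b))) ∧
    -- 3. bodies whose extreme points lie on many of a few hyperplanes
    (∀ (d n m : ℕ) (a : Fin n → (E d →ₗ[ℝ] ℝ)) (b : Fin n → ℝ) (K : Set (E d)), 2 ≤ d →
      n ≤ 2 * m → IsBody K →
      (∀ x ∈ Set.extremePoints ℝ K, ∃ y ∈ K, Close K x y ∧ OnHyperplanes a b m y) →
      CoveredBy (6 * (d * Real.log (2 * d + 1)) * (2 ^ d *
        Real.exp (-(((2 * m - n : ℕ) : ℝ) * ((2 * m - n : ℕ) + 1) / (4 * m))))) K ∧
      (4 * m * Real.log (6 * (d * Real.log (2 * d + 1))) < (2 * m - n : ℝ) ^ 2 → Fewer K)) ∧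
    -- 4. bodies with sparse extreme points
    (∀ (d s : ℕ) (β : Basis (Fin d) ℝ (E d)) (K : Set (E d)), 2 ≤ d → 2 * s ≤ d → IsBody K →
      (∀ x ∈ Set.extremePoints ℝ K, ∃ y ∈ K, Close K x y ∧ {i | β.repr y i ≠ 0}.ncard ≤ s) →
      4 * (d - s) * Real.log (6 * (d * Real.log (2 * d + 1))) < (d - 2 * s : ℝ) ^ 2 →
      Fewer K) ∧
    -- 5. the general form
    (∀ (d N : ℕ) (H : Fin N → AffineSubspace ℝ (E d)) (w : Fin N → ℝ) (K : Set (E d)), 2 ≤ d →
      (∀ j, 0 ≤ w j) → IsBody K →
      (∀ x ∈ Set.extremePoints ℝ K, ∃ S : Finset (Fin N), (∀ j ∈ S, NearFlat K (H j) x) ∧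
        1 ≤ ∑ j ∈ S, w j) →
      CoveredBy (6 * (d * Real.log (2 * d + 1)) *
        ∑ j, w j * 2 ^ finrank ℝ (H j).direction) K) := by
  have conv : ∀ (d k : ℕ) (x : ℝ), k ≤ d →
      2 ^ d * (x / (2 ^ (d - k) * (d.choose k : ℝ))) = 2 ^ k * (x / (d.choose k : ℝ)) := by
    intro d k x hk
    have e2 : (2 : ℝ) ^ d = 2 ^ k * 2 ^ (d - k) := by
      rw [← pow_add]
      congr 1
      omega
    have h0 : (2 : ℝ) ^ (d - k) ≠ 0 := by positivity
    rw [e2, ← div_div]
    field_simp
  refine ⟨?_, ?_, ?_, ?_, ?_⟩
  · rintro d n a b hd ha ⟨-, hKc, hKi⟩ k hk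
    rw [conv d k _ hk]
    exact ⟨faces_bound hd a b ha hKc hKi k hk, faces_bound_exact a b ha hKc hKi k hk,
      fun h => faces_strict hd a b ha hKc hKi k hk h⟩
  · rintro d n a b hd hn ⟨-, hKc, hKi⟩
    exact ⟨few_exp hd hn a b hKc hKi, fun h => few_strict hd hn a b hKc hKi h⟩
  · rintro d n m a b K hd hn ⟨hK, hKc, hKi⟩ hX
    exact ⟨hyper_exp hd hn K hK hKc hKi a b hX,
      fun h => hyper_strict hd hn K hK hKc hKi a b hX h⟩
  · rintro d s β K hd hs ⟨hK, hKc, hKi⟩ hX h
    exact sparse_strict hd s hs K hK hKc hKi β hX h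
  · rintro d N H w K hd hw ⟨hK, hKc, hKi⟩ hX
    exact flats_affine hd K hK hKc hKi N H w hw hX

end Pool.Agent.Results.MP_eba1ef_gt.FewFaces
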