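import Pool.Agent.Helper272_RF.B

set_option autoImplicit false

/-!
# MP_eba1ef_gt: a lower-dimensional body at every extreme point

Let `K` be a convex body in `ℝ^d`, `Z` a convex body of dimension `k` in a `k`-dimensional subspace
`L`, and let `K/L` be the image of `K` under a linear map onto `ℝ^(d-k)` with the kernel `L`.

**Theorem.** If every extreme point of `K` belongs to a positive homothet of `Z` contained in `K`
(so `K` is the convex hull of positive homothets of `Z`, of any sizes, in flats parallel to `L`) then

  `c(K) ≤ c(Z) c(K/L)`.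

It is enough that for every extreme point `x` of `K` the normal cone of `K` at `x`, restricted to `L`,
is contained in a normal cone of `Z`. If the homothets are translates then `K` is the sum of `Z` and
another set; this is the theorem `LowerDimensionalSummand` of the starting files.

The case of a parallelotope `Z` has a stronger form. Let `b_1, …, b_k` be linearly independent, with
the span `L`, and suppose that through every extreme point of `K` there is, for each `i`, a
nondegenerate chord of `K` parallel to `b_i`; or only that all functionals which attain their maximum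
over `K` at the extreme point are nonnegative at `b_i`, or all are nonpositive (`b_i` is a belt
direction). Then `c(K) ≤ 2^k c(K/L)`.

Consequences: a convex body in `ℝ^d` with `d - 2` linearly independent belt directions satisfies the
conjecture, `c(K) ≤ 2^d`; in `ℝ³` one direction is enough. A convex body in `ℝ^d` is covered by `2^d`
translates of its interior if its extreme points belong to homothets of a body `Z` of dimension
at least `d - 2` with `c(Z) ≤ 2^(dim Z)`; for instance all convex bodies in `ℝ⁴` which are convex hulls of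
homothets of a planar convex set. A counterexample of least dimension has no belt direction, and
its extreme points are not contained in homothets of a lower-dimensional body (contained in `K`) of
positive dimension.

Proof. Let `x` be an extreme point, and let `t` be a translation vector of `Z` which takes an interior
point of `Z` to the point `z` corresponding to `x`. Then `f(t) ≥ δ ‖f|L‖` for all normals `f` of `K` at
`x`, with a fixed `δ > 0`. Let `s` be a lift of a vector which takes an interior point of `K/L` to the
image of `x`. Over all points near the image of `x - s` there are points of `K`, so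
`f(s) ≥ f(c) - C ‖f|L‖` for all small lifted vectors `c`. Hence `-(R t + s)` illuminates `x`, where
`R = C/δ + 1`.
-/

namespace Pool.Agent.Results.MP_eba1ef_gt.HomothetsAtExtremePoints

/-- the Euclidean space `ℝ^d` -/
abbrev Eu (d : ℕ) : Type := EuclideanSpace ℝ (Fin d)

/-- Convex bodies: compact convex sets with nonempty interior. -/
def IsConvexBody {d : ℕ} (K : Set (Eu d)) : Prop :=
  Convex ℝ K ∧ IsCompact K ∧ (interior K).Nonempty

/-- `K` is covered by at most `N` translates of its interior. -/
def CoveredBy {d : ℕ} (K : Set (Eu d)) (N : ℕ) : Prop :=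
  ∃ T : Finset (Eu d), T.card ≤ N ∧ K ⊆ ⋃ t ∈ T, (fun x => t + x) '' interior K

/-- `c(K) ≤ N c(K/L)`: if `q` is a linear map onto `ℝ^m` with the kernel `L` and the image of `K` is
covered by `M` translates of its interior then `K` is covered by `N M` translates of its interior. -/
def QuotientBound {d : ℕ} (K : Set (Eu d)) (L : Submodule ℝ (Eu d)) (N : ℕ) : Prop :=
  ∀ (m : ℕ) (q : Eu d →ₗ[ℝ] Eu m), Function.Surjective q → LinearMap.ker q = L →
    ∀ M : ℕ, CoveredBy (q '' K) M → CoveredBy K (N * M)

/-- Restricted to the image of `j`, the normal cone of `K` at every extreme point is contained in a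
normal cone of `Z`. -/
def NormalConesRefine {d k : ℕ} (K : Set (Eu d)) (j : Eu k →ₗ[ℝ] Eu d) (Z : Set (Eu k)) : Prop :=
  ∀ x ∈ Set.extremePoints ℝ K, ∃ z ∈ Z, ∀ f : Eu d →L[ℝ] ℝ,
    (∀ y ∈ K, f y ≤ f x) → ∀ w ∈ Z, f (j w) ≤ f (j z)

/-- Every extreme point of `K` belongs to a set `a + λ j(Z)` with `λ > 0` contained in `K`. -/
def HomothetsInside {d k : ℕ} (K : Set (Eu d)) (j : Eu k →ₗ[ℝ] Eu d) (Z : Set (Eu k)) : Prop :=
  ∀ x ∈ Set.extremePoints ℝ K, ∃ (a : Eu d) (lam : ℝ), 0 < lam ∧
    x ∈ (fun z => a + lam • j z) '' Z ∧ (fun z => a + lam • j z) '' Z ⊆ K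

/-- `h` is a belt direction of `K`: at every extreme point `x` of `K` the linear functionals which
attain their maximum over `K` at `x` are all nonnegative at `h` or all nonpositive at `h`. -/
def IsBelt {d : ℕ} (K : Set (Eu d)) (h : Eu d) : Prop :=
  ∀ x ∈ Set.extremePoints ℝ K,
    (∀ f : Eu d →L[ℝ] ℝ, (∀ y ∈ K, f y ≤ f x) → 0 ≤ f h) ∨
    (∀ f : Eu d →L[ℝ] ℝ, (∀ y ∈ K, f y ≤ f x) → f h ≤ 0)

/-- The conjecture in all dimensions smaller than `d`. -/
def TrueBelow (d : ℕ) : Prop :=
  ∀ m < d, ∀ K : Set (Eu m), IsConvexBody K → CoveredBy K (2 ^ m)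

/-- Let `K` be a convex body in `ℝ^d`. (1) Let `j : ℝ^k → ℝ^d` be linear and injective and `Z` a convex
body in `ℝ^k` such that the normal cones of `K` at extreme points, restricted to the image `L` of `j`, are
contained in normal cones of `Z`. Then `c(K) ≤ c(Z) c(K/L)`; and `c(K) ≤ 2^d` if `k ≥ d - 2` and
`c(Z) ≤ 2^k` or `k ≤ 2`, or if `0 < k < d` and the conjecture holds in smaller dimensions. (2) The
hypothesis of (1) holds if every extreme point of `K` belongs to a set `a + λ j(Z)` with `λ > 0`
contained in `K`. (3) Let `b_1, …, b_k` be linearly independent belt directions of `K` with the span `L`.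
Then `c(K) ≤ 2^k c(K/L)`; and `c(K) ≤ 2^d` if `k ≥ d - 2`, or if `k > 0` and the conjecture holds in
smaller dimensions. (4) `h` is a belt direction if `K` has a nondegenerate chord parallel to `h` through
every extreme point. -/
theorem result (d k : ℕ) (K : Set (Eu d)) (hK : IsConvexBody K) :
    (∀ (j : Eu k →ₗ[ℝ] Eu d) (Z : Set (Eu k)),
      Function.Injective j → IsConvexBody Z → NormalConesRefine K j Z →
      (∀ N, CoveredBy Z N → QuotientBound K (LinearMap.range j) N) ∧
      (d ≤ k + 2 → (CoveredBy Z (2 ^ k) ∨ k ≤ 2) → CoveredBy K (2 ^ d)) ∧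
      (0 < k → k < d → TrueBelow d → CoveredBy K (2 ^ d))) ∧
    (∀ (j : Eu k →ₗ[ℝ] Eu d) (Z : Set (Eu k)), HomothetsInside K j Z → NormalConesRefine K j Z) ∧
    (∀ b : Fin k → Eu d, LinearIndependent ℝ b → (∀ i, IsBelt K (b i)) →
      QuotientBound K (Submodule.span ℝ (Set.range b)) (2 ^ k) ∧
      (d ≤ k + 2 → CoveredBy K (2 ^ d)) ∧
      (0 < k → TrueBelow d → CoveredBy K (2 ^ d))) ∧
    (∀ h : Eu d, (∀ x ∈ Set.extremePoints ℝ K, ∃ t : ℝ, t ≠ 0 ∧ x + t • h ∈ K) → IsBelt K h) := by
  refine ⟨?_, ?_, ?_, ?_⟩
  · intro j Z hj hZ h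
    refine ⟨?_, ?_, ?_⟩
    · intro N hN m q hq hker M hM
      refine Pool.Agent.Helper272_RF.of_ref j q hj hq (fun x => ?_) hK hZ.2.1 h hN hM
      rw [← LinearMap.mem_ker, hker, LinearMap.mem_range]
    · rintro hdk (h1 | h1)
      · exact Pool.Agent.Helper272_RF.codim_two j hj hK hZ.2.1 h hdk h1
      · exact Pool.Agent.Helper272_RF.codim_two j hj hK hZ.2.1 h hdk
          (Pool.Agent.Helper272_RF.small h1 hZ)
    · intro h0 hkd hall
      exact Pool.Agent.Helper272_RF.least j hj hK hZ h h0 hkd hall
  · intro j Z h x hx
    obtain ⟨a, lam, hlam, ⟨z, hz, hzx⟩, hsub⟩ := h x hx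
    refine ⟨z, hz, fun f hf w hw => ?_⟩
    have h2 := hf (a + lam • j w) (hsub ⟨w, hw, rfl⟩)
    have hzx' : a + lam • j z = x := hzx
    rw [← hzx', map_add, map_add, map_smul, map_smul, smul_eq_mul, smul_eq_mul] at h2
    have h3 : lam * f (j w) ≤ lam * f (j z) := by linarith
    exact le_of_mul_le_mul_left h3 hlam
  · intro b hb hbelt
    refine ⟨?_, ?_, ?_⟩
    · intro m q hq hker M hM
      refine Pool.Agent.Helper272_RF.belts b hb q hq (fun x => ?_) hK hbelt hM
      rw [← LinearMap.mem_ker, hker]
    · exact Pool.Agent.Helper272_RF.belts_two b hb hK hbelt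
    · intro h0 hall
      exact Pool.Agent.Helper272_RF.belt_least (h := b ⟨0, h0⟩) (hb.ne_zero ⟨0, h0⟩) hK
        (hbelt ⟨0, h0⟩) hall
  · intro h H x hx
    obtain ⟨t, ht, h1⟩ := H x hx
    rcases lt_or_gt_of_ne ht with h2 | h2
    · left
      intro f hf
      have h3 := hf _ h1
      rw [map_add, map_smul, smul_eq_mul] at h3
      nlinarith
    · right
      intro f hf
      have h3 := hf _ h1
      rw [map_add, map_smul, smul_eq_mul] at h3
      nlinarith

end Pool.Agent.Results.MP_eba1ef_gt.HomothetsAtExtremePoints
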